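import Pool.Agent.Helper392_PC.Core

/-!
# Goncharov's polylogarithmic complexes of `k(x)`, `k` finite or algebraic over `F_p`

For `F = k(x)`, `k` an arbitrary algebraic extension of `F_p`, in particular a finite field,
`H^i(Γ(F,n) ⊗ ℚ) = 0` for all `n ≥ 2` and `i = 1, n - 1, n`; in particular the complexes
`Γ(F,2) ⊗ ℚ` and `Γ(F,3) ⊗ ℚ` are acyclic. Goncharov's conjecture predicts this, because
`K_m(F) ⊗ ℚ = 0` for `m ≥ 2`.

The definitions are in `Pool/Agent/H39R2/GonP/Defs.lean`: `D.d m j` is the differential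
`(B_{m+3}(F) ⊗ Λ^j F^*) ⊗ ℚ → (B_{m+2}(F) ⊗ Λ^{j+1} F^*) ⊗ ℚ`, `D.e j` is the differential
`(B_2(F) ⊗ Λ^j F^*) ⊗ ℚ → Λ^{j+2} F^* ⊗ ℚ`.
-/

set_option autoImplicit false

namespace Pool.Agent.Results.MP_9c6ec7_al.GlobalRationalFunctionFields

open GonP

/-- For `F = k(x)`, `k` algebraic over `F_p`, the differentials of the complexes `Γ(F,n) ⊗ ℚ`,
`n ≥ 2`, exist and are unique, and `H^i(Γ(F,n) ⊗ ℚ) = 0` for `i = n`, `i = n - 1` and `i = 1`. -/
theorem result (p : ℕ) [Fact p.Prime] (k : Type) [Field k] [Algebra (ZMod p) k]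
    [Algebra.IsAlgebraic (ZMod p) k] :
    ∃ D : Differentials (RatFunc k), (∀ D' : Differentials (RatFunc k), D' = D) ∧
      -- degree `n = j + 2`
      (∀ j, Function.Surjective (D.e j)) ∧
      -- degree `n - 1`, `n = j + 3 ≥ 3`
      (∀ j, Function.Exact (D.d 0 j) (D.e (j + 1))) ∧
      -- degree `1`, `n = 2` and `n = m + 3 ≥ 3`
      Function.Injective (D.e 0) ∧ (∀ m, Function.Injective (D.d m 0)) :=
  Helper392PC.parts_P p k

end Pool.Agent.Results.MP_9c6ec7_al.GlobalRationalFunctionFields
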